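import Mathlib

set_option autoImplicit false
set_option linter.unusedSectionVars false

open TopologicalSpace Topology Set Filter

namespace Pool.Agent.Results.MP_013c33_an.StoneSick

universe u v

/-- The Stone space of a Boolean algebra `B`: its points are the ultrafilters of `B`. -/
structure StoneSpace (B : Type u) [BooleanAlgebra B] where
  carrier : Set B
  top_mem : ⊤ ∈ carrier
  bot_notMem : ⊥ ∉ carrier
  inf_mem : ∀ a b : B, a ∈ carrier → b ∈ carrier → a ⊓ b ∈ carrier
  mem_of_le : ∀ a b : B, a ∈ carrier → a ≤ b → b ∈ carrier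
  mem_or_compl_mem : ∀ a : B, a ∈ carrier ∨ aᶜ ∈ carrier

/-- The usual topology of the Stone space: it is generated by the sets `{U | a ∈ U}`. -/
instance (B : Type u) [BooleanAlgebra B] : TopologicalSpace (StoneSpace B) :=
  TopologicalSpace.generateFrom {s | ∃ a : B, s = {U : StoneSpace B | a ∈ U.carrier}}

/-- A compact Hausdorff space `K` is sick if `C(K)` is, via a one-to-one vector lattice
homomorphism `T` with `T 1 = e`, the principal ideal generated by `e ≥ 0` in a separable real
Banach lattice `E`. -/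
def IsSick (K : Type u) [TopologicalSpace K] : Prop :=
  CompactSpace K ∧ T2Space K ∧
  ∃ (E : Type v) (_ : NormedAddCommGroup E) (_ : NormedSpace ℝ E) (_ : Lattice E)
    (_ : IsOrderedAddMonoid E) (_ : IsOrderedModule ℝ E) (_ : HasSolidNorm E)
    (_ : CompleteSpace E) (_ : SeparableSpace E) (e : E) (T : C(K, ℝ) →ₗ[ℝ] E),
    0 ≤ e ∧ Function.Injective T ∧
    (∀ f g : C(K, ℝ), T (f ⊔ g) = T f ⊔ T g) ∧ (∀ f g : C(K, ℝ), T (f ⊓ g) = T f ⊓ T g) ∧
    Set.range T = {y : E | ∃ r : ℝ, 0 < r ∧ |y| ≤ r • e} ∧ T 1 = e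

section Stone

variable {B : Type u} [BooleanAlgebra B]

theorem StoneSpace.ext' {U V : StoneSpace B} (h : U.carrier = V.carrier) : U = V := by
  cases U; cases V; simp_all

theorem compl_mem_iff (U : StoneSpace B) (a : B) : aᶜ ∈ U.carrier ↔ a ∉ U.carrier := by
  constructor
  · intro h1 h2
    have := U.inf_mem _ _ h1 h2
    rw [compl_inf_eq_bot] at this
    exact U.bot_notMem this
  · intro h
    exact (U.mem_or_compl_mem a).resolve_left h

theorem isOpen_basic (a : B) : IsOpen {U : StoneSpace B | a ∈ U.carrier} :=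
  TopologicalSpace.isOpen_generateFrom_of_mem ⟨a, rfl⟩

theorem isClosed_basic (a : B) : IsClosed {U : StoneSpace B | a ∈ U.carrier} := by
  have : {U : StoneSpace B | a ∈ U.carrier} = {U : StoneSpace B | aᶜ ∈ U.carrier}ᶜ := by
    ext U
    simp [compl_mem_iff]
  rw [this]
  exact (isOpen_basic aᶜ).isClosed_compl

instance : T2Space (StoneSpace B) := by
  refine ⟨fun U V hUV => ?_⟩
  have h : ∃ a, a ∈ U.carrier ∧ a ∉ V.carrier := by
    by_contra hcon
    push Not at hcon
    apply hUV
    apply StoneSpace.ext'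
    apply Set.Subset.antisymm hcon
    intro a ha
    by_contra hna
    have h1 : aᶜ ∈ U.carrier := (compl_mem_iff U a).2 hna
    have h2 := hcon _ h1
    exact (compl_mem_iff V a).1 h2 ha
  obtain ⟨a, haU, haV⟩ := h
  refine ⟨_, _, isOpen_basic a, isOpen_basic aᶜ, haU, (compl_mem_iff V a).2 haV, ?_⟩
  rw [Set.disjoint_left]
  intro W h1 h2
  exact (compl_mem_iff W a).1 h2 h1

theorem isTopologicalBasis_basic :
    IsTopologicalBasis {s | ∃ a : B, s = {U : StoneSpace B | a ∈ U.carrier}} where
  exists_subset_inter := by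
    rintro _ ⟨a, rfl⟩ _ ⟨b, rfl⟩ U ⟨h1, h2⟩
    refine ⟨_, ⟨a ⊓ b, rfl⟩, U.inf_mem _ _ h1 h2, ?_⟩
    intro V hV
    exact ⟨V.mem_of_le _ _ hV inf_le_left, V.mem_of_le _ _ hV inf_le_right⟩
  sUnion_eq := by
    apply Set.eq_univ_of_forall
    intro U
    exact ⟨_, ⟨⊤, rfl⟩, U.top_mem⟩
  eq_generateFrom := rfl

theorem sup_mem_iff (U : StoneSpace B) (a b : B) :
    a ⊔ b ∈ U.carrier ↔ a ∈ U.carrier ∨ b ∈ U.carrier := by
  constructor
  · intro h
    by_contra hcon
    push Not at hcon
    have h1 := (compl_mem_iff U a).2 hcon.1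
    have h2 := (compl_mem_iff U b).2 hcon.2
    have h3 := U.inf_mem _ _ h1 h2
    rw [← compl_sup] at h3
    exact (compl_mem_iff U _).1 h3 h
  · rintro (h | h)
    · exact U.mem_of_le _ _ h le_sup_left
    · exact U.mem_of_le _ _ h le_sup_right

/-- In the Stone space, a compact set inside an open set can be separated by a basic set. -/
theorem exists_basic_between {Z O : Set (StoneSpace B)} (hZ : IsCompact Z) (hO : IsOpen O)
    (hZO : Z ⊆ O) : ∃ a : B, Z ⊆ {U | a ∈ U.carrier} ∧ {U : StoneSpace B | a ∈ U.carrier} ⊆ O := by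
  refine hZ.induction_on (p := fun Z => ∃ a : B, Z ⊆ {U | a ∈ U.carrier} ∧
    {U : StoneSpace B | a ∈ U.carrier} ⊆ O) ?_ ?_ ?_ ?_
  · refine ⟨⊥, empty_subset _, ?_⟩
    intro U hU
    exact absurd hU U.bot_notMem
  · rintro s t hst ⟨a, h1, h2⟩
    exact ⟨a, hst.trans h1, h2⟩
  · rintro s t ⟨a, h1, h2⟩ ⟨b, h3, h4⟩
    refine ⟨a ⊔ b, ?_, ?_⟩
    · rintro U (hU | hU)
      · exact (sup_mem_iff U a b).2 (Or.inl (h1 hU))
      · exact (sup_mem_iff U a b).2 (Or.inr (h3 hU))
    · intro U hU
      rcases (sup_mem_iff U a b).1 hU with h | h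
      · exact h2 h
      · exact h4 h
  · intro U hU
    obtain ⟨_, ⟨a, rfl⟩, haU, haO⟩ :=
      isTopologicalBasis_basic.exists_subset_of_mem_open (hZO hU) hO
    exact ⟨_, mem_nhdsWithin_of_mem_nhds ((isOpen_basic a).mem_nhds haU), a, Subset.rfl, haO⟩

end Stone

section Quotient

variable {K : Type u} [TopologicalSpace K]

/-- The canonical map `K → St(Clop K)`. -/
def toStone (x : K) : StoneSpace (Clopens K) where
  carrier := {a | x ∈ a}
  top_mem := mem_univ x
  bot_notMem := by
    intro h
    exact h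
  inf_mem := by
    intro a b ha hb
    exact ⟨ha, hb⟩
  mem_of_le := by
    intro a b ha hab
    exact hab ha
  mem_or_compl_mem := by
    intro a
    by_cases h : x ∈ a
    · exact Or.inl h
    · exact Or.inr h

theorem mem_toStone (x : K) (a : Clopens K) : a ∈ (toStone x).carrier ↔ x ∈ a := Iff.rfl

theorem continuous_toStone : Continuous (toStone : K → StoneSpace (Clopens K)) := by
  refine continuous_generateFrom_iff.2 ?_
  rintro _ ⟨a, rfl⟩
  exact a.isOpen

theorem surjective_toStone [CompactSpace K] :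
    Function.Surjective (toStone : K → StoneSpace (Clopens K)) := by
  intro U
  have hne : Nonempty U.carrier := ⟨⟨⊤, U.top_mem⟩⟩
  have h := IsCompact.nonempty_iInter_of_directed_nonempty_isCompact_isClosed
    (fun a : U.carrier => ((a : Clopens K) : Set K)) ?_ ?_ ?_ ?_
  · obtain ⟨x, hx⟩ := h
    refine ⟨x, ?_⟩
    apply StoneSpace.ext'
    rw [mem_iInter] at hx
    ext a
    constructor
    · intro ha
      by_contra hna
      have h1 := hx ⟨aᶜ, (compl_mem_iff U a).2 hna⟩
      exact h1 ha
    · intro ha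
      exact hx ⟨a, ha⟩
  · intro a b
    refine ⟨⟨a.1 ⊓ b.1, U.inf_mem _ _ a.2 b.2⟩, ?_, ?_⟩
    · exact fun x hx => hx.1
    · exact fun x hx => hx.2
  · intro a
    by_contra hcon
    rw [Set.not_nonempty_iff_eq_empty] at hcon
    have : (a : Clopens K) = ⊥ := by
      ext x
      rw [hcon]
      simp
    exact U.bot_notMem (this ▸ a.2)
  · intro a
    exact (a : Clopens K).isClosed.isCompact
  · intro a
    exact (a : Clopens K).isClosed

instance [CompactSpace K] : CompactSpace (StoneSpace (Clopens K)) :=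
  surjective_toStone.compactSpace continuous_toStone

/-- The canonical map as a continuous map. -/
def toStoneC : C(K, StoneSpace (Clopens K)) := ⟨toStone, continuous_toStone⟩

theorem isQuotientMap_toStone [CompactSpace K] [T2Space K] :
    IsQuotientMap (toStoneC : C(K, StoneSpace (Clopens K))) :=
  IsQuotientMap.of_surjective_continuous surjective_toStone continuous_toStone

theorem sep_of_stone [CompactSpace K] (g : C(StoneSpace (Clopens K), ℝ)) {s t : ℝ} (hst : s < t) :
    ∃ c : Clopens K, (∀ x, t ≤ g (toStone x) → x ∈ c) ∧ (∀ x ∈ c, s < g (toStone x)) := by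
  have hZ : IsCompact {U | t ≤ g U} := (isClosed_le continuous_const g.continuous).isCompact
  have hO : IsOpen {U | s < g U} := isOpen_lt continuous_const g.continuous
  obtain ⟨a, h1, h2⟩ := exists_basic_between hZ hO (fun U hU => lt_of_lt_of_le hst hU)
  exact ⟨a, fun x hx => h1 hx, fun x hx => h2 hx⟩

/-- If a continuous function on `K` has clopen separation of its level sets then it factors
through the Stone space. -/
theorem factors_of_sep [CompactSpace K] [T2Space K] (f : C(K, ℝ))
    (hf : ∀ s t : ℝ, s < t → ∃ c : Clopens K, (∀ x, t < f x → x ∈ c) ∧ (∀ x ∈ c, s ≤ f x)) :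
    ∃ g : C(StoneSpace (Clopens K), ℝ), ∀ x, g (toStone x) = f x := by
  have key : ∀ x y : K, toStone x = toStone y → f x ≤ f y := by
    intro x y hxy
    by_contra hcon
    push Not at hcon
    obtain ⟨s, hs1, hs2⟩ := exists_between hcon
    obtain ⟨t, ht1, ht2⟩ := exists_between hs2
    obtain ⟨c, hc1, hc2⟩ := hf s t ht1
    have h1 : x ∈ c := hc1 x ht2
    have h2 : y ∈ c := by
      rw [← mem_toStone, ← hxy]
      exact h1
    exact absurd (hc2 y h2) (not_le.2 hs1)
  have hfac : Function.FactorsThrough f (toStoneC : C(K, StoneSpace (Clopens K))) := by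
    intro x y hxy
    exact le_antisymm (key x y hxy) (key y x hxy.symm)
  refine ⟨isQuotientMap_toStone.lift f hfac, ?_⟩
  intro x
  have := isQuotientMap_toStone.lift_comp f hfac
  exact DFunLike.congr_fun this x

end Quotient

section Main

variable {K : Type u} [TopologicalSpace K]

/-- The indicator of a clopen set, as a continuous function. -/
noncomputable def ind (a : Clopens K) : C(K, ℝ) where
  toFun := (a : Set K).indicator 1
  continuous_toFun := by
    apply Continuous.indicator
    · intro x hx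
      rw [a.isClopen.frontier_eq] at hx
      exact absurd hx (notMem_empty x)
    · exact continuous_one

theorem cle {f g : C(K, ℝ)} : f ≤ g ↔ ∀ x, f x ≤ g x := Iff.rfl

theorem ind_apply_of_mem {a : Clopens K} {x : K} (h : x ∈ a) : ind a x = 1 :=
  Set.indicator_of_mem (s := (a : Set K)) h _

theorem ind_apply_of_notMem {a : Clopens K} {x : K} (h : x ∉ a) : ind a x = 0 :=
  Set.indicator_of_notMem (s := (a : Set K)) h _

theorem ind_nonneg (a : Clopens K) (x : K) : 0 ≤ ind a x := by
  by_cases h : x ∈ a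
  · rw [ind_apply_of_mem h]; norm_num
  · rw [ind_apply_of_notMem h]

theorem ind_le_one (a : Clopens K) (x : K) : ind a x ≤ 1 := by
  by_cases h : x ∈ a
  · rw [ind_apply_of_mem h]
  · rw [ind_apply_of_notMem h]; norm_num

variable {E : Type v} [NormedAddCommGroup E] [NormedSpace ℝ E] [Lattice E]
    [IsOrderedAddMonoid E] [IsOrderedModule ℝ E] [HasSolidNorm E]

/-- The data of a lattice embedding of `C(K)` onto a principal ideal. -/
structure Emb (K : Type u) [TopologicalSpace K] (E : Type v) [NormedAddCommGroup E]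
    [NormedSpace ℝ E] [Lattice E] where
  e : E
  T : C(K, ℝ) →ₗ[ℝ] E
  e_nonneg : 0 ≤ e
  inj : Function.Injective T
  map_sup : ∀ f g : C(K, ℝ), T (f ⊔ g) = T f ⊔ T g
  map_inf : ∀ f g : C(K, ℝ), T (f ⊓ g) = T f ⊓ T g
  range_eq : Set.range T = {y : E | ∃ r : ℝ, 0 < r ∧ |y| ≤ r • e}
  map_one : T 1 = e

namespace Emb

variable (D : Emb K E)

theorem le_iff (f g : C(K, ℝ)) : D.T f ≤ D.T g ↔ f ≤ g := by
  rw [← sup_eq_right, ← D.map_sup, D.inj.eq_iff, sup_eq_right]

theorem map_abs (f : C(K, ℝ)) : D.T |f| = |D.T f| := by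
  rw [abs, abs, D.map_sup, map_neg]

theorem norm_mono {f g : C(K, ℝ)} (hf : 0 ≤ f) (hfg : f ≤ g) : ‖D.T f‖ ≤ ‖D.T g‖ := by
  apply HasSolidNorm.solid
  rw [← D.map_abs, ← D.map_abs, D.le_iff, abs_of_nonneg hf, abs_of_nonneg (hf.trans hfg)]
  exact hfg

theorem norm_abs (f : C(K, ℝ)) : ‖D.T |f|‖ = ‖D.T f‖ := by
  rw [D.map_abs, norm_abs_eq_norm]

/-- The submeasure on clopen sets. -/
noncomputable def nu (a : Clopens K) : ℝ := ‖D.T (ind a)‖

theorem nu_nonneg (a : Clopens K) : 0 ≤ D.nu a := norm_nonneg _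

theorem nu_mono {a b : Clopens K} (h : a ≤ b) : D.nu a ≤ D.nu b := by
  apply D.norm_mono
  · exact fun x => ind_nonneg a x
  · refine cle.2 fun x => ?_
    by_cases hx : x ∈ a
    · rw [ind_apply_of_mem hx, ind_apply_of_mem (h hx)]
    · rw [ind_apply_of_notMem hx]
      exact ind_nonneg b x

/-- Bounded increasing sums of clopen sets have clopen closure of the union. -/
theorem exists_closure [CompactSpace K] [T2Space K] [CompleteSpace E]
    (a : ℕ → Clopens K) (ha : Monotone a) (C : ℝ)
    (hC : ∀ n, D.nu (a (n + 1) \ a n) ≤ C * (1 / 2) ^ n) :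
    ∃ c : Clopens K, (c : Set K) = closure (⋃ n, (a n : Set K)) ∧ D.nu c ≤ D.nu (a 0) + 2 * C := by
  have hdist : ∀ n, dist (D.T (ind (a n))) (D.T (ind (a (n + 1)))) ≤ C * (1 / 2) ^ n := by
    intro n
    rw [dist_comm, dist_eq_norm, ← map_sub]
    have : ind (a (n + 1)) - ind (a n) = ind (a (n + 1) \ a n) := by
      ext x
      rw [ContinuousMap.sub_apply]
      by_cases h1 : x ∈ a n
      · have h2 : x ∈ a (n + 1) := ha (Nat.le_succ n) h1
        have h3 : x ∉ a (n + 1) \ a n := fun h => h.2 h1
        rw [ind_apply_of_mem h1, ind_apply_of_mem h2, ind_apply_of_notMem h3, sub_self]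
      · by_cases h2 : x ∈ a (n + 1)
        · have h3 : x ∈ a (n + 1) \ a n := ⟨h2, h1⟩
          rw [ind_apply_of_notMem h1, ind_apply_of_mem h2, ind_apply_of_mem h3, sub_zero]
        · have h3 : x ∉ a (n + 1) \ a n := fun h => h2 h.1
          rw [ind_apply_of_notMem h1, ind_apply_of_notMem h2, ind_apply_of_notMem h3, sub_self]
    rw [this]
    exact hC n
  have hcauchy : CauchySeq (fun n => D.T (ind (a n))) :=
    cauchySeq_of_le_geometric (1 / 2) C (by norm_num) hdist
  obtain ⟨z, hz⟩ := cauchySeq_tendsto_of_complete hcauchy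
  have hz0 : 0 ≤ z := by
    refine ge_of_tendsto' hz fun n => ?_
    rw [← map_zero D.T, D.le_iff]
    exact fun x => ind_nonneg _ x
  have hz1 : z ≤ D.e := by
    refine le_of_tendsto' hz fun n => ?_
    rw [← D.map_one, D.le_iff]
    exact fun x => ind_le_one _ x
  have hzr : z ∈ Set.range D.T := by
    rw [D.range_eq]
    refine ⟨1, one_pos, ?_⟩
    rw [abs_of_nonneg hz0, one_smul]
    exact hz1
  obtain ⟨h, hh⟩ := hzr
  have hmin : h ⊓ (1 - h) = 0 := by
    apply D.inj
    rw [D.map_inf, map_sub, map_zero, D.map_one, hh]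
    have h1 : Tendsto (fun n => D.T (ind (a n)) ⊓ (D.e - D.T (ind (a n)))) atTop
        (𝓝 (z ⊓ (D.e - z))) := hz.inf_nhds (tendsto_const_nhds.sub hz)
    have h2 : ∀ n, D.T (ind (a n)) ⊓ (D.e - D.T (ind (a n))) = 0 := by
      intro n
      rw [← D.map_one, ← map_sub, ← D.map_inf, ← map_zero D.T]
      congr 1
      ext x
      rw [ContinuousMap.inf_apply, ContinuousMap.sub_apply, ContinuousMap.one_apply,
        ContinuousMap.zero_apply]
      by_cases hx : x ∈ a n
      · rw [ind_apply_of_mem hx]; simp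
      · rw [ind_apply_of_notMem hx]; simp
    simp only [h2] at h1
    exact (tendsto_nhds_unique h1 tendsto_const_nhds)
  have h01 : ∀ x, h x = 0 ∨ h x = 1 := by
    intro x
    have := DFunLike.congr_fun hmin x
    rw [ContinuousMap.inf_apply, ContinuousMap.sub_apply, ContinuousMap.one_apply,
        ContinuousMap.zero_apply] at this
    rcases le_total (h x) (1 - h x) with h1 | h1
    · rw [inf_eq_left.2 h1] at this
      exact Or.inl this
    · rw [inf_eq_right.2 h1] at this
      right; linarith
  have hle : ∀ n, ind (a n) ≤ h := by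
    intro n
    rw [← D.le_iff, hh]
    refine ge_of_tendsto hz ?_
    filter_upwards [eventually_ge_atTop n] with m hm
    rw [D.le_iff]
    refine cle.2 fun x => ?_
    by_cases hx : x ∈ a n
    · rw [ind_apply_of_mem hx, ind_apply_of_mem (ha hm hx)]
    · rw [ind_apply_of_notMem hx]
      exact ind_nonneg _ x
  have hset : {x | h x = 1} = closure (⋃ n, (a n : Set K)) := by
    apply Set.Subset.antisymm
    · intro x hx
      by_contra hcon
      obtain ⟨g, hg1, hg2, hg3⟩ := exists_continuous_zero_one_of_isClosed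
        (isClosed_singleton (x := x)) (isClosed_closure (s := ⋃ n, (a n : Set K)))
        (Set.disjoint_singleton_left.2 hcon)
      have h1 : ∀ n, ind (a n) ≤ g := by
        intro n
        refine cle.2 fun y => ?_
        by_cases hy : y ∈ a n
        · rw [ind_apply_of_mem hy, hg2 (subset_closure (mem_iUnion.2 ⟨n, hy⟩))]
          rfl
        · rw [ind_apply_of_notMem hy]
          exact (hg3 y).1
      have h2 : h ≤ g := by
        rw [← D.le_iff, hh]
        exact le_of_tendsto' hz fun n => (D.le_iff _ _).2 (h1 n)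
      have h3 := cle.1 h2 x
      have h4 : g x = 0 := hg1 rfl
      rw [h4, hx] at h3
      norm_num at h3
    · apply closure_minimal _ (isClosed_eq h.continuous continuous_const)
      intro x hx
      obtain ⟨n, hn⟩ := mem_iUnion.1 hx
      have := cle.1 (hle n) x
      rw [ind_apply_of_mem hn] at this
      rcases h01 x with h1 | h1
      · rw [h1] at this; norm_num at this
      · exact h1
  have hopen : IsOpen {x | h x = 1} := by
    have : {x | h x = 1} = {x | (1 / 2 : ℝ) < h x} := by
      ext x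
      simp only [mem_ofPred_eq]
      rcases h01 x with h1 | h1 <;> rw [h1] <;> norm_num
    rw [this]
    exact isOpen_lt continuous_const h.continuous
  have hclosed : IsClosed {x | h x = 1} := isClosed_eq h.continuous continuous_const
  refine ⟨⟨{x | h x = 1}, hclosed, hopen⟩, hset, ?_⟩
  have hindh : ind ⟨{x | h x = 1}, hclosed, hopen⟩ = h := by
    ext x
    rcases h01 x with h1 | h1
    · rw [h1]
      apply ind_apply_of_notMem
      intro hx
      have : h x = 1 := hx
      rw [h1] at this
      norm_num at this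
    · rw [h1]
      apply ind_apply_of_mem
      exact h1
  have hd := dist_le_of_le_geometric_of_tendsto₀ (1 / 2) C (by norm_num) hdist hz
  have : D.nu ⟨{x | h x = 1}, hclosed, hopen⟩ = ‖z‖ := by
    unfold nu
    rw [hindh, hh]
  rw [this]
  have h5 : ‖z‖ ≤ ‖D.T (ind (a 0))‖ + dist (D.T (ind (a 0))) z := by
    rw [dist_eq_norm]
    have := norm_sub_norm_le z (D.T (ind (a 0)))
    rw [norm_sub_rev] at this
    linarith
  have h6 : C / (1 - 1 / 2) = 2 * C := by ring
  rw [h6] at hd
  unfold nu
  linarith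

/-- An open set carrying only functions of arbitrarily small norm is empty. -/
theorem open_empty [CompactSpace K] [T2Space K] {W : Set K} (hW : IsOpen W) (ε : ℕ → ℝ)
    (hε : Tendsto ε atTop (𝓝 0))
    (h : ∀ g : C(K, ℝ), (∀ x, 0 ≤ g x) → (∀ x, g x ≤ 1) → (∀ x, x ∉ W → g x = 0) →
      ∀ n, ‖D.T g‖ ≤ ε n) : W = ∅ := by
  by_contra hcon
  obtain ⟨x0, hx0⟩ := Set.nonempty_iff_ne_empty.2 hcon
  obtain ⟨g, hg1, hg2, hg3⟩ := exists_continuous_zero_one_of_isClosed
        hW.isClosed_compl (isClosed_singleton (x := x0))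
        (Set.disjoint_singleton_right.2 (fun h => h hx0))
  have h1 : ‖D.T g‖ ≤ 0 := by
    refine ge_of_tendsto' hε fun n => ?_
    exact h g (fun x => (hg3 x).1) (fun x => (hg3 x).2) (fun x hx => hg1 hx) n
  have h2 : D.T g = 0 := norm_le_zero_iff.1 h1
  rw [← map_zero D.T] at h2
  have h3 := D.inj h2
  have h4 : g x0 = 1 := hg2 rfl
  rw [h3] at h4
  simp at h4

/-- Finite unions of a sequence of clopen sets. -/
def part (b : ℕ → Clopens K) (n : ℕ) : ℕ → Clopens K
  | 0 => b n
  | k + 1 => part b n k ⊔ b (n + k + 1)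

theorem part_mono (b : ℕ → Clopens K) (n : ℕ) : Monotone (part b n) :=
  monotone_nat_of_le_succ fun _ => le_sup_left

theorem le_part (b : ℕ → Clopens K) (n k : ℕ) : b (n + k) ≤ part b n k := by
  cases k with
  | zero => exact le_rfl
  | succ k => exact le_sup_right

theorem part_succ_le (b : ℕ → Clopens K) (n k : ℕ) : part b (n + 1) k ≤ part b n (k + 1) := by
  induction k with
  | zero => exact le_sup_right
  | succ k ih =>
    refine sup_le (ih.trans le_sup_left) ?_
    have : n + 1 + k + 1 = n + (k + 1) + 1 := by ring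
    rw [this]
    exact le_sup_right

/-- A stabilised sequence of clopen sets. -/
def stab (d c : ℕ → Clopens K) (N : ℕ) : ℕ → Clopens K
  | 0 => d N \ c N
  | j + 1 => stab d c N j ⊔ ((d (N + j + 1) \ c (N + j + 1)) ⊓ c (N + j))

theorem stab_mono (d c : ℕ → Clopens K) (N : ℕ) : Monotone (stab d c N) :=
  monotone_nat_of_le_succ fun _ => le_sup_left

theorem closed_main [CompactSpace K] [T2Space K] [CompleteSpace E] (f : C(K, ℝ))
    (g : ℕ → C(StoneSpace (Clopens K), ℝ))
    (hg : ∀ n, ‖D.T ((g n).comp toStoneC) - D.T f‖ ≤ (1 / 4) ^ n) :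
    ∀ s t : ℝ, s < t → ∃ c : Clopens K, (∀ x, t < f x → x ∈ c) ∧ (∀ x ∈ c, s ≤ f x) := by
  set F : ℕ → C(K, ℝ) := fun n => (g n).comp toStoneC with hF
  have hFa : ∀ n x, F n x = g n (toStone x) := fun n x => rfl
  have hpow : ∀ n : ℕ, (1 / 4 : ℝ) ^ n = (1 / 2) ^ n * (1 / 2) ^ n := by
    intro n
    rw [← mul_pow]
    norm_num
  have hppos : ∀ n : ℕ, (0 : ℝ) < (1 / 2) ^ n := fun n => by positivity
  have hpsucc : ∀ n : ℕ, (1 / 2 : ℝ) ^ (n + 1) = (1 / 2) ^ n / 2 := by
    intro n
    rw [pow_succ]
    ring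
  -- the sets where consecutive functions differ much
  have hb : ∀ n : ℕ, ∃ b : Clopens K, (∀ x, (1 / 2 : ℝ) ^ n ≤ |F n x - F (n + 1) x| → x ∈ b) ∧
      (∀ x ∈ b, (1 / 2 : ℝ) ^ (n + 1) < |F n x - F (n + 1) x|) := by
    intro n
    have h1 : (1 / 2 : ℝ) ^ (n + 1) < (1 / 2) ^ n := by
      have := hppos n
      rw [hpsucc]
      linarith
    obtain ⟨c, hc1, hc2⟩ := sep_of_stone |g n - g (n + 1)| h1
    refine ⟨c, ?_, ?_⟩
    · intro x hx
      apply hc1
      rw [hFa, hFa] at hx
      exact hx
    · intro x hx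
      rw [hFa, hFa]
      exact hc2 x hx
  choose b hb1 hb2 using hb
  have hnub : ∀ n, D.nu (b n) ≤ 4 * (1 / 2) ^ n := by
    intro n
    have h1 : ‖D.T ((1 / 2 : ℝ) ^ (n + 1) • ind (b n))‖ ≤ ‖D.T |F n - F (n + 1)|‖ := by
      apply D.norm_mono
      · refine cle.2 fun x => ?_
        rw [ContinuousMap.smul_apply, ContinuousMap.zero_apply, smul_eq_mul]
        exact mul_nonneg (hppos _).le (ind_nonneg _ _)
      · refine cle.2 fun x => ?_
        rw [ContinuousMap.smul_apply, ContinuousMap.abs_apply, ContinuousMap.sub_apply,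
          smul_eq_mul]
        by_cases hx : x ∈ b n
        · rw [ind_apply_of_mem hx, mul_one]
          exact (hb2 n x hx).le
        · rw [ind_apply_of_notMem hx, mul_zero]
          exact abs_nonneg _
    rw [D.norm_abs, map_smul, norm_smul, Real.norm_of_nonneg (hppos _).le, map_sub] at h1
    have h2 : ‖D.T (F n) - D.T (F (n + 1))‖ ≤ (1 / 4) ^ n + (1 / 4) ^ (n + 1) := by
      have h3 : D.T (F n) - D.T (F (n + 1)) =
        (D.T (F n) - D.T f) - (D.T (F (n + 1)) - D.T f) := by abel
      rw [h3]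
      exact (norm_sub_le _ _).trans (add_le_add (hg n) (hg (n + 1)))
    have h4 : (1 / 4 : ℝ) ^ (n + 1) ≤ (1 / 4) ^ n :=
      pow_le_pow_of_le_one (by norm_num) (by norm_num) (Nat.le_succ n)
    have h5 : (1 / 2 : ℝ) ^ (n + 1) * D.nu (b n) ≤ 2 * ((1 / 2) ^ n * (1 / 2) ^ n) := by
      have h8 := hpow n
      have h9 : (1 / 2 : ℝ) ^ (n + 1) * D.nu (b n) ≤ ‖D.T (F n) - D.T (F (n + 1))‖ := h1
      linarith
    rw [hpsucc] at h5
    have h6 := hppos n
    have h7 : (1 / 2 : ℝ) ^ n * D.nu (b n) ≤ (1 / 2) ^ n * (4 * (1 / 2) ^ n) := by linarith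
    exact le_of_mul_le_mul_left h7 h6
  have hc : ∀ n : ℕ, ∃ c : Clopens K, (c : Set K) = closure (⋃ k, (part b n k : Set K)) ∧
      D.nu c ≤ 8 * (1 / 2) ^ n := by
    intro n
    obtain ⟨c, hc1, hc2⟩ := D.exists_closure (part b n) (part_mono b n) (2 * (1 / 2) ^ n) (by
      intro k
      have h1 : part b n (k + 1) \ part b n k ≤ b (n + k + 1) := by
        change (part b n k ⊔ b (n + k + 1)) \ part b n k ≤ _
        rw [sup_sdiff_left_self]
        exact sdiff_le
      refine (D.nu_mono h1).trans ((hnub _).trans ?_)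
      rw [hpsucc, pow_add]
      apply le_of_eq
      ring)
    refine ⟨c, hc1, hc2.trans ?_⟩
    have h1 : D.nu (part b n 0) ≤ 4 * (1 / 2) ^ n := hnub n
    linarith
  choose c hc1 hc2 using hc
  have hbc : ∀ n k, b (n + k) ≤ c n := by
    intro n k x hx
    have : x ∈ (c n : Set K) := by
      rw [hc1]
      exact subset_closure (mem_iUnion.2 ⟨k, le_part b n k hx⟩)
    exact this
  have hcanti : ∀ n, c (n + 1) ≤ c n := by
    intro n x hx
    have h1 : x ∈ (c (n + 1) : Set K) := hx
    rw [hc1] at h1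
    have h2 : x ∈ (c n : Set K) := by
      rw [hc1]
      refine closure_mono (iUnion_subset fun k => ?_) h1
      exact Subset.trans (part_succ_le b n k) (subset_iUnion (fun k => (part b n k : Set K)) (k + 1))
    exact h2
  have hgeo : ∀ n x, x ∉ c n → ∀ j, |F n x - F (n + j) x| ≤
      2 * (1 / 2) ^ n - 2 * (1 / 2) ^ (n + j) := by
    intro n x hx j
    induction j with
    | zero => simp
    | succ j ih =>
      have h1 : |F (n + j) x - F (n + j + 1) x| < (1 / 2) ^ (n + j) := by
        by_contra hcon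
        push Not at hcon
        exact hx (hbc n j (hb1 _ x hcon))
      have h2 : |F n x - F (n + (j + 1)) x| ≤ |F n x - F (n + j) x| +
          |F (n + j) x - F (n + j + 1) x| := abs_sub_le _ _ _
      have h3 := hpsucc (n + j)
      rw [show n + (j + 1) = n + j + 1 from rfl] at *
      linarith
  have hclose : ∀ n x, x ∉ c n → |F n x - f x| ≤ 2 * (1 / 2) ^ n := by
    intro n x0 hx0
    by_contra hcon
    push Not at hcon
    obtain ⟨η', hη'⟩ : ∃ η', η' = |F n x0 - f x0| - 2 * (1 / 2) ^ n := ⟨_, rfl⟩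
    have hη'pos : 0 < η' := by linarith
    have hWopen : IsOpen ({x | x ∉ c n} ∩ {x | 2 * (1 / 2) ^ n + η' / 2 < |F n x - f x|}) := by
      apply IsOpen.inter
      · exact (c n).isClosed.isOpen_compl
      · exact isOpen_lt continuous_const ((F n).continuous.sub f.continuous).abs
    have hemp := D.open_empty hWopen (fun k => (2 / η') * ((1 / 4) ^ (n + k))) (by
        have h1 : Tendsto (fun k : ℕ => (1 / 4 : ℝ) ^ k) atTop (𝓝 0) :=
          tendsto_pow_atTop_nhds_zero_of_lt_one (by norm_num) (by norm_num)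
        have h2 : Tendsto (fun k : ℕ => (1 / 4 : ℝ) ^ (n + k)) atTop (𝓝 0) := by
          have := (tendsto_add_atTop_iff_nat n).2 h1
          simpa [add_comm] using this
        simpa using h2.const_mul (2 / η')) (by
        intro φ hφ0 hφ1 hφW k
        have h1 : ‖D.T ((η' / 2) • φ)‖ ≤ ‖D.T |F (n + k) - f|‖ := by
          apply D.norm_mono
          · refine cle.2 fun x => ?_
            rw [ContinuousMap.smul_apply, ContinuousMap.zero_apply, smul_eq_mul]
            exact mul_nonneg (by linarith) (hφ0 x)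
          · refine cle.2 fun x => ?_
            rw [ContinuousMap.smul_apply, ContinuousMap.abs_apply, ContinuousMap.sub_apply,
              smul_eq_mul]
            by_cases hx : x ∈ ({x | x ∉ c n} ∩ {x | 2 * (1 / 2) ^ n + η' / 2 < |F n x - f x|})
            · obtain ⟨hx1, hx2⟩ := hx
              have h2 := hgeo n x hx1 k
              have h3 : |F n x - f x| ≤ |F n x - F (n + k) x| + |F (n + k) x - f x| :=
                abs_sub_le _ _ _
              have h4 := hppos (n + k)
              have h5 : η' / 2 * φ x ≤ η' / 2 := by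
                have := hφ1 x
                nlinarith
              have h6 : 2 * (1 / 2) ^ n + η' / 2 < |F n x - f x| := hx2
              linarith
            · rw [hφW x hx, mul_zero]
              exact abs_nonneg _
        rw [D.norm_abs, map_smul, norm_smul, Real.norm_of_nonneg (by linarith), map_sub] at h1
        have h2 := h1.trans (hg (n + k))
        rw [div_mul_eq_mul_div, le_div_iff₀ hη'pos]
        linarith)
    have : x0 ∈ ({x | x ∉ c n} ∩ {x | 2 * (1 / 2) ^ n + η' / 2 < |F n x - f x|}) := by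
      refine ⟨hx0, ?_⟩
      change 2 * (1 / 2) ^ n + η' / 2 < |F n x0 - f x0|
      linarith
    rw [hemp] at this
    exact this
  intro s t hst
  obtain ⟨N, hN⟩ : ∃ N : ℕ, (1 / 2 : ℝ) ^ N < (t - s) / 4 :=
    exists_pow_lt_of_lt_one (by linarith) (by norm_num)
  have hd : ∀ n : ℕ, ∃ d : Clopens K, (∀ x, t - 2 * (1 / 2) ^ N ≤ F n x → x ∈ d) ∧
      (∀ x ∈ d, s + 2 * (1 / 2) ^ N < F n x) := by
    intro n
    exact sep_of_stone (g n) (by linarith)
  choose d hd1 hd2 using hd
  have hpN : ∀ j : ℕ, (1 / 2 : ℝ) ^ (N + j) ≤ (1 / 2) ^ N := fun j =>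
    pow_le_pow_of_le_one (by norm_num) (by norm_num) (Nat.le_add_right N j)
  obtain ⟨e, he1, -⟩ := D.exists_closure (stab d c N) (stab_mono d c N) 8 (by
    intro j
    have h1 : stab d c N (j + 1) \ stab d c N j ≤ c (N + j) := by
      change (stab d c N j ⊔ ((d (N + j + 1) \ c (N + j + 1)) ⊓ c (N + j))) \ stab d c N j ≤ _
      rw [sup_sdiff_left_self]
      exact sdiff_le.trans inf_le_right
    refine (D.nu_mono h1).trans ((hc2 _).trans ?_)
    have h2 : (1 / 2 : ℝ) ^ (N + j) ≤ (1 / 2) ^ j :=
      pow_le_pow_of_le_one (by norm_num) (by norm_num) (Nat.le_add_left j N)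
    linarith)
  have claim1 : ∀ j x, x ∉ c (N + j) → t ≤ f x → x ∈ stab d c N j := by
    intro j
    induction j with
    | zero =>
      intro x hx hfx
      refine ⟨hd1 N x ?_, hx⟩
      have h1 := hclose N x hx
      have h2 := (abs_le.1 h1).1
      linarith
    | succ j ih =>
      intro x hx hfx
      by_cases hxc : x ∈ c (N + j)
      · right
        refine ⟨⟨hd1 _ x ?_, hx⟩, hxc⟩
        have h1 := hclose (N + (j + 1)) x hx
        have h2 := (abs_le.1 h1).1
        have h3 := hpN (j + 1)
        rw [show N + j + 1 = N + (j + 1) from rfl]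
        linarith
      · left
        exact ih x hxc hfx
  have claim2 : ∀ j x, x ∈ stab d c N j → s ≤ f x := by
    have aux : ∀ j x, x ∈ d (N + j) → x ∉ c (N + j) → s ≤ f x := by
      intro j x hxd hxc
      have h1 := hclose (N + j) x hxc
      have h2 := (abs_le.1 h1).2
      have h3 := hpN j
      have h4 := hd2 (N + j) x hxd
      linarith
    intro j
    induction j with
    | zero =>
      intro x hx
      exact aux 0 x hx.1 hx.2
    | succ j ih =>
      rintro x (hx | hx)
      · exact ih x hx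
      · exact aux (j + 1) x hx.1.1 hx.1.2
  refine ⟨e, ?_, ?_⟩
  · -- `{f > t} ⊆ e`
    have hWopen : IsOpen ({x | t < f x} ∩ {x | x ∉ e}) := by
      apply IsOpen.inter
      · exact isOpen_lt continuous_const f.continuous
      · exact e.isClosed.isOpen_compl
    have hemp := D.open_empty hWopen (fun j => 8 * (1 / 2) ^ (N + j)) (by
        have h1 : Tendsto (fun k : ℕ => (1 / 2 : ℝ) ^ k) atTop (𝓝 0) :=
          tendsto_pow_atTop_nhds_zero_of_lt_one (by norm_num) (by norm_num)
        have h2 : Tendsto (fun k : ℕ => (1 / 2 : ℝ) ^ (N + k)) atTop (𝓝 0) := by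
          have := (tendsto_add_atTop_iff_nat N).2 h1
          simpa [add_comm] using this
        simpa using h2.const_mul 8) (by
        intro φ hφ0 hφ1 hφW j
        refine le_trans ?_ (hc2 (N + j))
        apply D.norm_mono
        · exact hφ0
        · refine cle.2 fun x => ?_
          by_cases hx : x ∈ c (N + j)
          · rw [ind_apply_of_mem hx]
            exact hφ1 x
          · rw [ind_apply_of_notMem hx]
            apply le_of_eq
            apply hφW
            rintro ⟨hx1, hx2⟩
            apply hx2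
            have h3 : x ∈ (e : Set K) := by
              rw [he1]
              exact subset_closure (mem_iUnion.2 ⟨j, claim1 j x hx (le_of_lt hx1)⟩)
            exact h3)
    intro x hx
    by_contra hcon
    have : x ∈ ({x | t < f x} ∩ {x | x ∉ e}) := ⟨hx, hcon⟩
    rw [hemp] at this
    exact this
  · intro x hx
    have h1 : x ∈ (e : Set K) := hx
    rw [he1] at h1
    have h2 : closure (⋃ n, (stab d c N n : Set K)) ⊆ {x | s ≤ f x} := by
      apply closure_minimal _ (isClosed_le continuous_const f.continuous)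
      intro y hy
      obtain ⟨j, hj⟩ := mem_iUnion.1 hy
      exact claim2 j y hj
    exact h2 h1

end Emb

end Main

/-- Composition with `K → St(Clop K)`. -/
def pull (K : Type u) [TopologicalSpace K] :
    C(StoneSpace (Clopens K), ℝ) →ₗ[ℝ] C(K, ℝ) where
  toFun g := g.comp toStoneC
  map_add' _ _ := rfl
  map_smul' _ _ := rfl

/-- For every sick compactum `K`, the Stone space of the algebra of clopen subsets of `K` is
sick. -/
theorem result (K : Type u) [TopologicalSpace K] (h : IsSick.{u, v} K) :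
    IsSick.{u, v} (StoneSpace (Clopens K)) := by
  obtain ⟨hK1, hK2, E, _, _, _, _, _, _, _, _, e, T, he, hinj, hsup, hinf, hrange, hone⟩ := h
  let D : Emb K E := ⟨e, T, he, hinj, hsup, hinf, hrange, hone⟩
  let T' : C(StoneSpace (Clopens K), ℝ) →ₗ[ℝ] E := T ∘ₗ pull K
  have hT' : ∀ g, T' g = T (g.comp toStoneC) := fun g => rfl
  have hpull : Function.Injective (pull K) := by
    intro f g hfg
    ext U
    obtain ⟨x, rfl⟩ := surjective_toStone U
    exact DFunLike.congr_fun hfg x
  have hT'inj : Function.Injective T' := hinj.comp hpull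
  have hT'sup : ∀ f g, T' (f ⊔ g) = T' f ⊔ T' g := fun f g =>
    hsup (f.comp toStoneC) (g.comp toStoneC)
  have hT'inf : ∀ f g, T' (f ⊓ g) = T' f ⊓ T' g := fun f g =>
    hinf (f.comp toStoneC) (g.comp toStoneC)
  let M : Submodule ℝ E := (LinearMap.range T').topologicalClosure
  have hMclosure : (M : Set E) = closure (Set.range T') := by
    rw [← LinearMap.coe_range]
    exact Submodule.topologicalClosure_coe _
  have hMclosed : IsClosed (M : Set E) := Submodule.isClosed_topologicalClosure _
  have hmem : ∀ g, T' g ∈ M := fun g => by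
    have : T' g ∈ (M : Set E) := by
      rw [hMclosure]
      exact subset_closure ⟨g, rfl⟩
    exact this
  have hMsup : ∀ ⦃x y : E⦄, x ∈ M → y ∈ M → x ⊔ y ∈ M := by
    intro x y hx hy
    have hx' : x ∈ (M : Set E) := hx
    have hy' : y ∈ (M : Set E) := hy
    have : x ⊔ y ∈ (M : Set E) := by
      rw [hMclosure] at *
      refine map_mem_closure₂ continuous_sup hx' hy' ?_
      rintro _ ⟨f, rfl⟩ _ ⟨g, rfl⟩
      exact ⟨f ⊔ g, hT'sup f g⟩
    exact this
  have hMinf : ∀ ⦃x y : E⦄, x ∈ M → y ∈ M → x ⊓ y ∈ M := by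
    intro x y hx hy
    have hx' : x ∈ (M : Set E) := hx
    have hy' : y ∈ (M : Set E) := hy
    have : x ⊓ y ∈ (M : Set E) := by
      rw [hMclosure] at *
      refine map_mem_closure₂ continuous_inf hx' hy' ?_
      rintro _ ⟨f, rfl⟩ _ ⟨g, rfl⟩
      exact ⟨f ⊓ g, hT'inf f g⟩
    exact this
  -- order ideal generated by `e` inside `M`
  have hideal : ∀ y : E, y ∈ M → ∀ r : ℝ, 0 < r → |y| ≤ r • e → ∃ g, T' g = y := by
    intro y hy r hr hyr
    have hy1 : y ∈ Set.range T := by
      rw [hrange]
      exact ⟨r, hr, hyr⟩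
    obtain ⟨f, hf⟩ := hy1
    have hy2 : y ∈ closure (Set.range T') := by
      rw [← hMclosure]
      exact hy
    have hseq : ∀ n : ℕ, ∃ g, ‖T' g - y‖ ≤ (1 / 4) ^ n := by
      intro n
      obtain ⟨_, ⟨g, rfl⟩, hg⟩ := Metric.mem_closure_iff.1 hy2 ((1 / 4) ^ n) (by positivity)
      refine ⟨g, ?_⟩
      rw [dist_comm, dist_eq_norm] at hg
      exact hg.le
    choose g hg using hseq
    obtain ⟨g', hg'⟩ := factors_of_sep f (D.closed_main f g (by
      intro n
      have := hg n
      rw [← hf] at this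
      exact this))
    refine ⟨g', ?_⟩
    rw [← hf]
    change T (g'.comp toStoneC) = T f
    congr 1
    ext x
    exact hg' x
  have heM : e ∈ M := by
    have := hmem 1
    have h1 : T' 1 = e := hone
    rwa [h1] at this
  have hcompl : CompleteSpace M := hMclosed.completeSpace_coe
  have hsepM : SeparableSpace M := by
    have : SecondCountableTopology E := UniformSpace.secondCountable_of_separable E
    infer_instance
  let latM : Lattice M := Subtype.lattice (P := fun x => x ∈ M) hMsup hMinf
  have hle : ∀ x y : M, x ≤ y ↔ (x : E) ≤ y := fun x y => Iff.rfl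
  have habs : ∀ x : M, ((|x| : M) : E) = |(x : E)| := fun x => rfl
  refine ⟨inferInstance, inferInstance, M, inferInstance, inferInstance, latM, ?_, ?_, ?_,
    hcompl, hsepM, ⟨e, heM⟩, T'.codRestrict M hmem, ?_, ?_, ?_, ?_, ?_, ?_⟩
  · exact { add_le_add_left := fun a b hab c => (add_le_add_left ((hle a b).1 hab) (c : E) :) }
  · exact { smul_le_smul_of_nonneg_left := fun a ha b c hbc =>
              (smul_le_smul_of_nonneg_left ((hle b c).1 hbc) ha :)
            smul_le_smul_of_nonneg_right := fun a ha b c hbc =>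
              (smul_le_smul_of_nonneg_right hbc ((hle 0 a).1 ha) :) }
  · exact ⟨fun x y hxy => HasSolidNorm.solid (α := E) (x := (x : E)) (y := (y : E)) hxy⟩
  · exact he
  · intro f g hfg
    exact hT'inj (congrArg Subtype.val hfg)
  · intro f g
    exact Subtype.ext (hT'sup f g)
  · intro f g
    exact Subtype.ext (hT'inf f g)
  · apply Set.Subset.antisymm
    · rintro _ ⟨f, rfl⟩
      have h1 : T' f ∈ Set.range T := ⟨f.comp toStoneC, rfl⟩
      rw [hrange] at h1
      obtain ⟨r, hr, hr2⟩ := h1
      exact ⟨r, hr, hr2⟩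
    · rintro y ⟨r, hr, hr2⟩
      obtain ⟨g, hg⟩ := hideal y y.2 r hr hr2
      exact ⟨g, Subtype.ext hg⟩
  · exact Subtype.ext hone

end Pool.Agent.Results.MP_013c33_an.StoneSick
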